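import Pool.Agent.J4H61.QB.Stm4
import Pool.Agent.J4H89.QB.Diag

set_option autoImplicit false

/-! (ALL) the maximum is attained at the identity. -/

open Finset MeasureTheory Filter Topology Matrix
open scoped ComplexConjugate ComplexOrder

namespace Pool.Agent.J4H3.QA
open Pool.Agent.V11219.MomentOp Pool.Agent.J4H61.QB

lemma deriv_int {Ω : Type*} [TopologicalSpace Ω] [CompactSpace Ω] [MeasurableSpace Ω]
    [BorelSpace Ω] (μ : Measure Ω) [IsFiniteMeasure μ] (p a b : Ω → ℂ) (hp : Continuous p)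
    (ha : Continuous a) (hb : Continuous b) (n : ℕ) (s : ℝ) :
    HasDerivAt (fun s : ℝ => ∫ ω, p ω * (a ω + s * b ω) ^ (n + 1) ∂μ)
      (∫ ω, p ω * ((n + 1) * (a ω + s * b ω) ^ n * b ω) ∂μ) s := by
  obtain ⟨P, hP⟩ := isCompact_univ.exists_bound_of_continuousOn hp.continuousOn
  obtain ⟨A, hA⟩ := isCompact_univ.exists_bound_of_continuousOn ha.continuousOn
  obtain ⟨B, hB⟩ := isCompact_univ.exists_bound_of_continuousOn hb.continuousOn
  have hP' : ∀ ω, ‖p ω‖ ≤ |P| := fun ω => (hP ω trivial).trans (le_abs_self _)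
  have hA' : ∀ ω, ‖a ω‖ ≤ |A| := fun ω => (hA ω trivial).trans (le_abs_self _)
  have hB' : ∀ ω, ‖b ω‖ ≤ |B| := fun ω => (hB ω trivial).trans (le_abs_self _)
  have hint : ∀ f : Ω → ℂ, Continuous f → Integrable f μ := fun f hf =>
    hf.integrable_of_hasCompactSupport (HasCompactSupport.of_compactSpace f)
  have hc1 : ∀ s : ℝ, Continuous fun ω => p ω * (a ω + s * b ω) ^ (n + 1) := fun s =>
    hp.mul ((ha.add (continuous_const.mul hb)).pow _)
  have hc2 : ∀ s : ℝ, Continuous fun ω => p ω * ((n + 1) * (a ω + s * b ω) ^ n * b ω) := fun s =>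
    hp.mul ((continuous_const.mul ((ha.add (continuous_const.mul hb)).pow _)).mul hb)
  refine (hasDerivAt_integral_of_dominated_loc_of_deriv_le (𝕜 := ℝ) (μ := μ)
    (F := fun s ω => p ω * (a ω + s * b ω) ^ (n + 1))
    (F' := fun s ω => p ω * ((n + 1) * (a ω + s * b ω) ^ n * b ω))
    (s := Metric.ball s 1) (bound := fun _ => |P| * ((n + 1) * (|A| + (|s| + 1) * |B|) ^ n * |B|))
    (Metric.ball_mem_nhds s one_pos) ?_ ?_ ?_ ?_ ?_ ?_).2
  · exact Eventually.of_forall fun s => (hint _ (hc1 s)).aestronglyMeasurable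
  · exact hint _ (hc1 s)
  · exact (hint _ (hc2 s)).aestronglyMeasurable
  · refine Eventually.of_forall fun ω x hx => ?_
    rw [Metric.mem_ball, Real.dist_eq] at hx
    have hx1 : |x| ≤ |s| + 1 := by
      have := abs_sub_abs_le_abs_sub x s
      linarith
    rw [norm_mul, norm_mul, norm_mul, norm_pow]
    have h1 : ‖a ω + x * b ω‖ ≤ |A| + (|s| + 1) * |B| := by
      refine (norm_add_le _ _).trans (add_le_add (hA' ω) ?_)
      rw [norm_mul, Complex.norm_real, Real.norm_eq_abs]
      exact mul_le_mul hx1 (hB' ω) (norm_nonneg _) (by positivity)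
    have h2 : ‖(n : ℂ) + 1‖ = n + 1 := by
      have : ((n : ℂ) + 1) = ((n + 1 : ℕ) : ℂ) := by push_cast; rfl
      rw [this, Complex.norm_natCast]
      push_cast
      rfl
    rw [h2]
    gcongr
    · exact hP' ω
    · exact hB' ω
  · exact integrable_const _
  · refine Eventually.of_forall fun ω x _ => ?_
    have h1 : HasDerivAt (fun x : ℝ => a ω + (x : ℂ) * b ω) (b ω) x := by
      have h2 : HasDerivAt (fun x : ℝ => (x : ℂ)) 1 x := Complex.ofRealCLM.hasDerivAt
      simpa using (h2.mul_const (b ω)).const_add (a ω)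
    have h3 := (h1.pow (n + 1)).const_mul (p ω)
    have e : p ω * ((n + 1) * (a ω + x * b ω) ^ n * b ω) =
        p ω * (((n + 1 : ℕ) : ℂ) * (a ω + (x : ℂ) * b ω) ^ (n + 1 - 1) * b ω) := by
      rw [Nat.add_sub_cancel]
      push_cast
      ring
    rw [e]
    exact h3

lemma cont_tr {d : ℕ} (X : Mat d) :
    Continuous fun U : Matrix.unitaryGroup (Fin d) ℂ => Matrix.trace (X * (U : Mat d)ᴴ) := by
  have h0 : Continuous fun U : Matrix.unitaryGroup (Fin d) ℂ => (U : Mat d) :=
    continuous_subtype_val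
  exact (continuous_const.matrix_mul h0.matrix_conjTranspose).matrix_trace

lemma cont_tr1 {d : ℕ} :
    Continuous fun U : Matrix.unitaryGroup (Fin d) ℂ => Matrix.trace (U : Mat d) := by
  have h0 : Continuous fun U : Matrix.unitaryGroup (Fin d) ℂ => (U : Mat d) :=
    continuous_subtype_val
  exact h0.matrix_trace

lemma tr_lin {d : ℕ} (X Y U : Mat d) (s : ℝ) :
    Matrix.trace ((X + (s : ℂ) • Y) * Uᴴ) = Matrix.trace (X * Uᴴ) + s * Matrix.trace (Y * Uᴴ) := by
  rw [Matrix.add_mul, Matrix.trace_add, Matrix.smul_mul, Matrix.trace_smul, smul_eq_mul]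

/-- the derivative of `F` along a segment -/
lemma hasDeriv_F {d : ℕ} (n : ℕ) (X Y : Mat d) (s : ℝ) :
    HasDerivAt (fun s : ℝ => F d (n + 1) (X + (s : ℂ) • Y))
      (∫ U : Matrix.unitaryGroup (Fin d) ℂ, (Matrix.trace (U : Mat d)) ^ (n + 1) *
        ((n + 1) * (Matrix.trace ((X + (s : ℂ) • Y) * (U : Mat d)ᴴ)) ^ n *
          Matrix.trace (Y * (U : Mat d)ᴴ)) ∂(haarU (Fin d))).re s := by
  have h := deriv_int (haarU (Fin d)) (fun U => (Matrix.trace (U : Mat d)) ^ (n + 1))
    (fun U => Matrix.trace (X * (U : Mat d)ᴴ)) (fun U => Matrix.trace (Y * (U : Mat d)ᴴ))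
    (cont_tr1.pow _) (cont_tr X) (cont_tr Y) n s
  have h2 := Complex.reCLM.hasFDerivAt.comp_hasDerivAt s h
  simp only [Complex.reCLM_apply] at h2
  unfold F
  simp only [tr_lin]
  exact h2

/-- the path from the identity -/
lemma le_one_of_strict (hKK : S_KK) {d n : ℕ} (hd : 0 < d) (x : Fin d → ℝ) (hx : StrictAnti x)
    (hpos : ∀ i, 0 < x i) (hsum : ∑ i, x i = d) : F d (n + 1) (dg x) ≤ F d (n + 1) 1 := by
  set Y : Mat d := dg x - 1 with hY
  have hg : ∀ s : ℝ, (1 : Mat d) + (s : ℂ) • Y = dg (fun i => 1 + s * (x i - 1)) := by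
    intro s
    rw [hY]
    unfold dg
    ext i j
    simp only [Matrix.add_apply, Matrix.smul_apply, Matrix.sub_apply, smul_eq_mul]
    rcases eq_or_ne i j with rfl | hij
    · simp
    · simp [Matrix.diagonal_apply_ne _ hij, Matrix.one_apply_ne hij]
  set φ : ℝ → ℝ := fun s => F d (n + 1) (1 + (s : ℂ) • Y) with hφ
  have hder := fun s => hasDeriv_F n (1 : Mat d) Y s
  have hanti : AntitoneOn φ (Set.Icc 0 1) := by
    refine antitoneOn_of_deriv_nonpos (convex_Icc 0 1)
      (fun s _ => (hder s).continuousAt.continuousWithinAt)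
      (fun s _ => (hder s).differentiableAt.differentiableWithinAt) (fun s hs => ?_)
    rw [interior_Icc] at hs
    rw [(hder s).deriv]
    have hs0 := hs.1
    have hs1 := hs.2
    -- the inequality between `F` and `G`
    have hk := hKK d n (fun i => 1 + s * (x i - 1)) (fun i j hij => by
      have := hx hij
      show 1 + s * (x j - 1) < 1 + s * (x i - 1)
      nlinarith) (fun i => by
      have := hpos i
      nlinarith)
    have hsum' : ∑ i, (1 + s * (x i - 1)) = d := by
      rw [Finset.sum_add_distrib, ← Finset.mul_sum, Finset.sum_sub_distrib, hsum]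
      simp
    rw [hsum'] at hk
    have hd' : (0 : ℝ) < d := by exact_mod_cast hd
    have hFG : F d (n + 1) (dg fun i => 1 + s * (x i - 1)) ≤
        G d (n + 1) (dg fun i => 1 + s * (x i - 1)) := le_of_mul_le_mul_left hk hd'
    rw [← hg] at hFG
    -- `s φ' = (n + 1) (F - G)`
    set J : ℝ := (∫ U : Matrix.unitaryGroup (Fin d) ℂ, (Matrix.trace (U : Mat d)) ^ (n + 1) *
        ((n + 1) * (Matrix.trace ((1 + (s : ℂ) • Y) * (U : Mat d)ᴴ)) ^ n *
          Matrix.trace (Y * (U : Mat d)ᴴ)) ∂(haarU (Fin d))).re with hJ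
    have hint : ∀ f : Matrix.unitaryGroup (Fin d) ℂ → ℂ, Continuous f →
        Integrable f (haarU (Fin d)) := fun f hf =>
      hf.integrable_of_hasCompactSupport (HasCompactSupport.of_compactSpace f)
    have key : s * J = (n + 1) * (F d (n + 1) (1 + (s : ℂ) • Y) - G d (n + 1) (1 + (s : ℂ) • Y)) := by
      have e1 : (s : ℂ) * (∫ U : Matrix.unitaryGroup (Fin d) ℂ,
          (Matrix.trace (U : Mat d)) ^ (n + 1) *
          ((n + 1) * (Matrix.trace ((1 + (s : ℂ) • Y) * (U : Mat d)ᴴ)) ^ n *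
          Matrix.trace (Y * (U : Mat d)ᴴ)) ∂(haarU (Fin d))) = ((n : ℂ) + 1) *
          ((∫ U : Matrix.unitaryGroup (Fin d) ℂ, (Matrix.trace (U : Mat d)) ^ (n + 1) *
            (Matrix.trace ((1 + (s : ℂ) • Y) * (U : Mat d)ᴴ)) ^ (n + 1) ∂(haarU (Fin d))) -
          ∫ U : Matrix.unitaryGroup (Fin d) ℂ, (Matrix.trace (U : Mat d)) ^ (n + 1) *
            ((Matrix.trace ((1 + (s : ℂ) • Y) * (U : Mat d)ᴴ)) ^ (n + 1 - 1) *
              Matrix.trace (U : Mat d)ᴴ) ∂(haarU (Fin d))) := by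
        rw [← integral_sub, ← integral_const_mul, ← integral_const_mul]
        · refine integral_congr_ae (Eventually.of_forall fun U => ?_)
          simp only [tr_lin, Matrix.one_mul, Nat.add_sub_cancel]
          ring
        · exact hint _ ((cont_tr1.pow _).mul ((cont_tr _).pow _))
        · refine hint _ ((cont_tr1.pow _).mul (((cont_tr _).pow _).mul ?_))
          have := cont_tr (1 : Mat d)
          simpa using this
      have e2 := congrArg Complex.re e1
      rw [Complex.re_ofReal_mul] at e2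
      have e3 : ((n : ℂ) + 1) = (((n : ℝ) + 1 : ℝ) : ℂ) := by push_cast; rfl
      rw [e3, Complex.re_ofReal_mul, Complex.sub_re] at e2
      rw [hJ]
      unfold F G
      rw [← e3] at e2
      exact e2
    have h3 : s * J ≤ 0 := by
      rw [key]
      have : (0 : ℝ) ≤ n + 1 := by positivity
      exact mul_nonpos_of_nonneg_of_nonpos this (by linarith)
    by_contra hcon
    push Not at hcon
    nlinarith
  have h1 := hanti (Set.left_mem_Icc.2 zero_le_one) (Set.right_mem_Icc.2 zero_le_one) zero_le_one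
  simp only [hφ] at h1
  have e1 : (1 : Mat d) + ((1 : ℝ) : ℂ) • Y = dg x := by
    rw [hY]; simp
  have e0 : (1 : Mat d) + ((0 : ℝ) : ℂ) • Y = 1 := by simp
  rw [e1, e0] at h1
  exact h1

/-- weakly decreasing, nonnegative -/
lemma le_one_of_anti (hKK : S_KK) {d n : ℕ} (hd : 0 < d) (x : Fin d → ℝ) (hx : Antitone x)
    (hpos : ∀ i, 0 ≤ x i) (hsum : ∑ i, x i = d) : F d (n + 1) (dg x) ≤ F d (n + 1) 1 := by
  set S : ℝ := ∑ j : Fin d, ((d : ℝ) - j) with hS
  have hlt : ∀ j : Fin d, (0 : ℝ) < (d : ℝ) - j := fun j => by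
    have : ((j : ℕ) : ℝ) < d := by exact_mod_cast j.2
    linarith
  have hd' : (0 : ℝ) < d := by exact_mod_cast hd
  have hS0 : 0 < S := Finset.sum_pos (fun j _ => hlt j) ⟨⟨0, hd⟩, Finset.mem_univ _⟩
  set w : Fin d → ℝ := fun i => d * ((d : ℝ) - i) / S with hw
  have hw0 : ∀ i, 0 < w i := fun i => div_pos (mul_pos hd' (hlt i)) hS0
  have hwa : ∀ i j, i < j → w j < w i := fun i j hij => by
    have h1 : ((i : ℕ) : ℝ) < ((j : ℕ) : ℝ) := by exact_mod_cast hij
    simp only [hw]
    rw [div_lt_div_iff_of_pos_right hS0]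
    nlinarith
  have hws : ∑ i, w i = d := by
    simp only [hw]
    rw [← Finset.sum_div, ← Finset.mul_sum, ← hS]
    field_simp
  set Y : Mat d := dg w - dg x with hY
  have hg : ∀ s : ℝ, dg x + (s : ℂ) • Y = dg (fun i => x i + s * (w i - x i)) := by
    intro s
    rw [hY]
    unfold dg
    ext i j
    simp only [Matrix.add_apply, Matrix.smul_apply, Matrix.sub_apply, smul_eq_mul]
    rcases eq_or_ne i j with rfl | hij
    · simp
    · simp [Matrix.diagonal_apply_ne _ hij]
  have hc : ContinuousAt (fun s : ℝ => F d (n + 1) (dg x + (s : ℂ) • Y)) 0 :=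
    (hasDeriv_F n (dg x) Y 0).continuousAt
  have hlim : Tendsto (fun s : ℝ => F d (n + 1) (dg x + (s : ℂ) • Y)) (𝓝[>] 0)
      (𝓝 (F d (n + 1) (dg x))) := by
    have h1 := hc.tendsto.mono_left (nhdsWithin_le_nhds (s := Set.Ioi (0 : ℝ)))
    simpa using h1
  refine le_of_tendsto hlim ?_
  have h1 : ∀ᶠ s in 𝓝[>] (0 : ℝ), s ∈ Set.Ioo (0 : ℝ) 1 := Ioo_mem_nhdsGT one_pos
  filter_upwards [h1] with s hs
  rw [hg]
  have hs0 := hs.1
  have hs1 := hs.2
  refine le_one_of_strict hKK hd _ (fun i j hij => ?_) (fun i => ?_) ?_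
  · have a1 := hwa i j hij
    have a2 := hx hij.le
    show x j + s * (w j - x j) < x i + s * (w i - x i)
    nlinarith
  · have a1 := hw0 i
    have a2 := hpos i
    nlinarith [mul_pos hs0 a1, mul_nonneg (sub_nonneg.2 hs1.le) a2]
  · rw [Finset.sum_add_distrib, ← Finset.mul_sum, Finset.sum_sub_distrib, hws, hsum]
    ring

/-- the permutation matrix -/
noncomputable def pm {d : ℕ} (σ : Equiv.Perm (Fin d)) : Matrix.unitaryGroup (Fin d) ℂ :=
  ⟨Matrix.of fun i j => if σ i = j then 1 else 0, by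
    rw [Matrix.mem_unitaryGroup_iff]
    ext i k
    simp [Matrix.mul_apply, Matrix.one_apply, Matrix.star_apply]⟩

lemma F_perm {d t : ℕ} (σ : Equiv.Perm (Fin d)) (x : Fin d → ℝ) :
    F d t (dg fun i => x (σ i)) = F d t (dg x) := by
  rw [← Pool.Agent.J4H89.QB.F_conj t (pm σ) (dg x)]
  congr 1
  ext i j
  simp [pm, dg, Matrix.mul_apply, Matrix.star_apply, Matrix.diagonal_apply]
  split_ifs with h
  · rw [h]
  · rfl

theorem t_ALL : S_KK → S_ALL := by
  intro hKK d t X hX htr
  rcases Nat.eq_zero_or_pos t with rfl | ht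
  · unfold F
    simp
  obtain ⟨n, rfl⟩ : ∃ n, t = n + 1 := ⟨t - 1, by omega⟩
  rcases Nat.eq_zero_or_pos d with rfl | hd
  · rw [Subsingleton.elim X 1]
  have hH := hX.isHermitian
  have hsp := hH.spectral_theorem
  set l : Fin d → ℝ := hH.eigenvalues with hl
  have hlsum : ∑ i, l i = d := by
    have h1 := hH.trace_eq_sum_eigenvalues
    rw [htr] at h1
    have h2 := congrArg Complex.re h1
    simp at h2
    exact h2.symm
  have hF : F d (n + 1) X = F d (n + 1) (dg l) := by
    rw [← Pool.Agent.J4H89.QB.F_conj (n + 1) hH.eigenvectorUnitary (dg l)]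
    congr 1
  set σ := Tuple.sort fun i => -l i with hσ
  have hmono : Monotone ((fun i => -l i) ∘ σ) := Tuple.monotone_sort _
  rw [hF, ← F_perm σ l]
  refine le_one_of_anti hKK hd _ (fun i j hij => ?_) (fun i => hX.eigenvalues_nonneg _) ?_
  · have := hmono hij
    simp only [Function.comp_apply] at this
    linarith
  · rw [← hlsum]
    exact Equiv.sum_comp σ l

end Pool.Agent.J4H3.QA
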