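import Pool.Agent.J4H61.QB.Stm3

set_option autoImplicit false

/-! The Kadison-Schwarz inequality passes to the mean. -/

open Matrix MeasureTheory
open scoped ComplexOrder

namespace Pool.Agent.J4H3.QB
open Pool.Agent.V11219.MomentOp Pool.Agent.J4H61.QB

lemma cint {Ω : Type*} [TopologicalSpace Ω] [CompactSpace Ω] [MeasurableSpace Ω] [BorelSpace Ω]
    (μ : Measure Ω) [IsFiniteMeasure μ] {f : Ω → ℂ} (hf : Continuous f) : Integrable f μ :=
  hf.integrable_of_hasCompactSupport (HasCompactSupport.of_compactSpace f)

/-- the mean of positive semidefinite matrices is positive semidefinite -/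
lemma psd_mean {Ω : Type*} [TopologicalSpace Ω] [CompactSpace Ω] [MeasurableSpace Ω] [BorelSpace Ω]
    (μ : Measure Ω) [IsFiniteMeasure μ] {n : Type*} [Fintype n] (G : Ω → Matrix n n ℂ)
    (hc : ∀ i j, Continuous fun ω => G ω i j) (hp : ∀ ω, (G ω).PosSemidef) :
    (Matrix.of fun i j => ∫ ω, G ω i j ∂μ).PosSemidef := by
  rw [Matrix.posSemidef_iff_dotProduct_mulVec]
  constructor
  · ext i j
    simp only [Matrix.conjTranspose_apply, Matrix.of_apply]
    rw [← starRingEnd_apply, ← integral_conj]
    refine integral_congr_ae (Filter.Eventually.of_forall fun ω => ?_)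
    have := (hp ω).isHermitian
    simpa using congrFun (congrFun this i) j
  · intro x
    have h1 : star x ⬝ᵥ ((Matrix.of fun i j => ∫ ω, G ω i j ∂μ) *ᵥ x) =
        ∫ ω, star x ⬝ᵥ (G ω *ᵥ x) ∂μ := by
      simp only [dotProduct, Matrix.mulVec, Matrix.of_apply]
      rw [integral_finsetSum]
      · refine Finset.sum_congr rfl fun i _ => ?_
        rw [integral_const_mul, integral_finsetSum]
        · refine congrArg _ (Finset.sum_congr rfl fun j _ => ?_)
          rw [integral_mul_const]
        · intro j _
          exact (cint μ (hc i j)).mul_const _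
      · intro i _
        refine cint μ (continuous_const.mul (continuous_finsetSum _ fun j _ =>
          (hc i j).mul continuous_const))
    rw [h1]
    have hq : ∀ ω, 0 ≤ star x ⬝ᵥ (G ω *ᵥ x) := fun ω => (hp ω).dotProduct_mulVec_nonneg x
    have hcq : Continuous fun ω => star x ⬝ᵥ (G ω *ᵥ x) := by
      simp only [dotProduct, Matrix.mulVec]
      exact continuous_finsetSum _ fun i _ => continuous_const.mul
        (continuous_finsetSum _ fun j _ => (hc i j).mul continuous_const)
    rw [Complex.nonneg_iff]
    constructor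
    · have := integral_re (𝕜 := ℂ) (cint μ hcq)
      simp only [RCLike.re_to_complex] at this
      rw [← this]
      exact integral_nonneg fun ω => (Complex.nonneg_iff.1 (hq ω)).1
    · have := integral_im (𝕜 := ℂ) (cint μ hcq)
      simp only [RCLike.im_to_complex] at this
      rw [← this]
      simp [fun ω => (Complex.nonneg_iff.1 (hq ω)).2.symm]

lemma cont_dilated {d dE : ℕ} (ψ : Fin dE → ℂ) (X : Mat d) (k l : Fin d) :
    Continuous fun V : Matrix.unitaryGroup (Fin d × Fin dE) ℂ =>
      dilated (d := d) ψ (V : Matrix (Fin d × Fin dE) (Fin d × Fin dE) ℂ) X k l := by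
  simp only [dilated, LinearMap.coe_mk, AddHom.coe_mk, Matrix.of_apply]
  refine continuous_finsetSum _ fun x _ => ?_
  have h : Continuous fun V : Matrix.unitaryGroup (Fin d × Fin dE) ℂ =>
      ((V : Matrix (Fin d × Fin dE) (Fin d × Fin dE) ℂ) *
        (Matrix.kronecker X (Matrix.vecMulVec ψ (star ψ))) *
        (V : Matrix (Fin d × Fin dE) (Fin d × Fin dE) ℂ)ᴴ) := by
    have h0 : Continuous fun V : Matrix.unitaryGroup (Fin d × Fin dE) ℂ =>
      (V : Matrix (Fin d × Fin dE) (Fin d × Fin dE) ℂ) := continuous_subtype_val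
    exact (h0.matrix_mul continuous_const).matrix_mul h0.matrix_conjTranspose
  exact h.matrix_elem _ _

lemma cont_T {t d dE : ℕ} (ψ : Fin dE → ℂ) (X : MatT d t) (k l : Fin t → Fin d) :
    Continuous fun V : Matrix.unitaryGroup (Fin d × Fin dE) ℂ =>
      tensorPow t (dilated (d := d) ψ (V : Matrix (Fin d × Fin dE) (Fin d × Fin dE) ℂ)) X k l := by
  simp only [tensorPow, LinearMap.coe_mk, AddHom.coe_mk, Matrix.of_apply]
  exact continuous_finsetSum _ fun i _ => continuous_finsetSum _ fun j _ =>
    continuous_const.mul (continuous_finsetProd _ fun s _ => cont_dilated ψ _ _ _)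

lemma cOp_single {t d dE : ℕ} (ψ : Fin dE → ℂ) (i j k l : Fin t → Fin d) :
    cOp t d dE ψ (Matrix.single i j 1) k l =
      ∫ V : Matrix.unitaryGroup (Fin d × Fin dE) ℂ,
        tensorPow t (dilated (d := d) ψ (V : Matrix (Fin d × Fin dE) (Fin d × Fin dE) ℂ))
          (Matrix.single i j 1) k l ∂(haarU (Fin d × Fin dE)) := by
  simp only [cOp, momentOp, LinearMap.coe_mk, AddHom.coe_mk, Matrix.of_apply]
  rw [Finset.sum_eq_single i, Finset.sum_eq_single j]
  · simp
  · intro b _ hb
    simp [Matrix.single_apply, Ne.symm hb]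
  · simp
  · intro b _ hb
    simp [Matrix.single_apply, Ne.symm hb]
  · simp

lemma cont_adj {t d dE : ℕ} (ψ : Fin dE → ℂ) (X : MatT d t) (i j : Fin t → Fin d) :
    Continuous fun V : Matrix.unitaryGroup (Fin d × Fin dE) ℂ =>
      adj (tensorPow t (dilated (d := d) ψ
        (V : Matrix (Fin d × Fin dE) (Fin d × Fin dE) ℂ))) X i j := by
  simp only [adj, LinearMap.coe_mk, AddHom.coe_mk, Matrix.of_apply]
  exact continuous_finsetSum _ fun k _ => continuous_finsetSum _ fun l _ =>
    continuous_const.mul (continuous_star.comp (cont_T ψ _ _ _))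

/-- the adjoint of the moment operator is the mean of the adjoints -/
lemma adj_cOp {t d dE : ℕ} (ψ : Fin dE → ℂ) (X : MatT d t) (i j : Fin t → Fin d) :
    adj (cOp t d dE ψ) X i j =
      ∫ V : Matrix.unitaryGroup (Fin d × Fin dE) ℂ,
        adj (tensorPow t (dilated (d := d) ψ
          (V : Matrix (Fin d × Fin dE) (Fin d × Fin dE) ℂ))) X i j ∂(haarU (Fin d × Fin dE)) := by
  simp only [adj, LinearMap.coe_mk, AddHom.coe_mk, Matrix.of_apply]
  rw [integral_finsetSum]
  · refine Finset.sum_congr rfl fun k _ => ?_
    rw [integral_finsetSum]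
    · refine Finset.sum_congr rfl fun l _ => ?_
      rw [integral_const_mul, cOp_single, ← starRingEnd_apply, ← integral_conj]
      rfl
    · intro l _
      exact cint _ (continuous_const.mul (continuous_star.comp (cont_T ψ _ _ _)))
  · intro k _
    exact cint _ (continuous_finsetSum _ fun l _ =>
      continuous_const.mul (continuous_star.comp (cont_T ψ _ _ _)))

theorem t_KSA : S_KSA := by
  intro t d dE ψ h
  have hA : ∀ X : MatT d t, adj (cOp t d dE ψ) X = Matrix.of fun i j =>
      ∫ V : Matrix.unitaryGroup (Fin d × Fin dE) ℂ,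
        adj (tensorPow t (dilated (d := d) ψ
          (V : Matrix (Fin d × Fin dE) (Fin d × Fin dE) ℂ))) X i j ∂(haarU (Fin d × Fin dE)) := by
    intro X
    ext i j
    rw [adj_cOp]; rfl
  constructor
  · intro X hX
    rw [hA]
    exact psd_mean _ _ (cont_adj ψ X) fun V => (h V).1 X hX
  · intro X
    set B : MatT d t := adj (cOp t d dE ψ) X with hB
    set T : Matrix.unitaryGroup (Fin d × Fin dE) ℂ → MatT d t →ₗ[ℂ] MatT d t := fun V =>
      tensorPow t (dilated (d := d) ψ (V : Matrix (Fin d × Fin dE) (Fin d × Fin dE) ℂ)) with hT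
    set G : Matrix.unitaryGroup (Fin d × Fin dE) ℂ → MatT d t := fun V =>
      adj (T V) (Xᴴ * X) - (adj (T V) X)ᴴ * B - Bᴴ * adj (T V) X + Bᴴ * B with hG
    have hc1 : ∀ i j, Continuous fun V => adj (T V) (Xᴴ * X) i j := cont_adj ψ _
    have hc2 : ∀ i j, Continuous fun V => ((adj (T V) X)ᴴ * B) i j := by
      intro i j
      simp only [Matrix.mul_apply, Matrix.conjTranspose_apply]
      exact continuous_finsetSum _ fun k _ =>
        (continuous_star.comp (cont_adj ψ X k i)).mul continuous_const
    have hc3 : ∀ i j, Continuous fun V => (Bᴴ * adj (T V) X) i j := by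
      intro i j
      simp only [Matrix.mul_apply]
      exact continuous_finsetSum _ fun k _ => continuous_const.mul (cont_adj ψ X k j)
    have hGc : ∀ i j, Continuous fun V => G V i j := by
      intro i j
      simp only [hG, Matrix.add_apply, Matrix.sub_apply]
      exact (((hc1 i j).sub (hc2 i j)).sub (hc3 i j)).add continuous_const
    have hGp : ∀ V, (G V).PosSemidef := by
      intro V
      have e : G V = (adj (T V) (Xᴴ * X) - (adj (T V) X)ᴴ * adj (T V) X) +
          (adj (T V) X - B)ᴴ * (adj (T V) X - B) := by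
        simp only [hG, Matrix.conjTranspose_sub, Matrix.sub_mul, Matrix.mul_sub]
        abel
      rw [e]
      exact ((h V).2 X).add (Matrix.posSemidef_conjTranspose_mul_self _)
    have hm := psd_mean (haarU (Fin d × Fin dE)) G hGc hGp
    convert hm using 1
    ext i j
    have e1 : ∫ V, adj (T V) (Xᴴ * X) i j ∂(haarU (Fin d × Fin dE)) =
        adj (cOp t d dE ψ) (Xᴴ * X) i j := (adj_cOp ψ _ i j).symm
    have e2 : ∫ V, ((adj (T V) X)ᴴ * B) i j ∂(haarU (Fin d × Fin dE)) = (Bᴴ * B) i j := by
      simp only [Matrix.mul_apply, Matrix.conjTranspose_apply]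
      rw [integral_finsetSum]
      · refine Finset.sum_congr rfl fun k _ => ?_
        rw [integral_mul_const]
        congr 1
        rw [hB, adj_cOp, ← starRingEnd_apply, ← integral_conj]
        rfl
      · intro k _
        exact cint _ ((continuous_star.comp (cont_adj ψ X k i)).mul continuous_const)
    have e3 : ∫ V, (Bᴴ * adj (T V) X) i j ∂(haarU (Fin d × Fin dE)) = (Bᴴ * B) i j := by
      simp only [Matrix.mul_apply]
      rw [integral_finsetSum]
      · refine Finset.sum_congr rfl fun k _ => ?_
        rw [integral_const_mul]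
        congr 1
        rw [hB, adj_cOp]
      · intro k _
        exact cint _ (continuous_const.mul (cont_adj ψ X k j))
    simp only [Matrix.of_apply, hG, Matrix.add_apply, Matrix.sub_apply]
    rw [integral_add, integral_sub, integral_sub, e1, e2, e3]
    · simp
    · exact cint _ (hc1 i j)
    · exact cint _ (hc2 i j)
    · exact cint _ ((hc1 i j).sub (hc2 i j))
    · exact cint _ (hc3 i j)
    · exact cint _ (((hc1 i j).sub (hc2 i j)).sub (hc3 i j))
    · exact cint _ continuous_const

end Pool.Agent.J4H3.QB
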