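import Pool.Agent.J4H61.QB.Stm4

set_option autoImplicit false

/-! Identities for the Vandermonde product: induction on the number of variables, without division. -/

open Finset

namespace Pool.Agent.J4H3.QB
open Pool.Agent.J4H61.QB

/-- `∏_{j ≠ i} (z - w_j)` -/
noncomputable def Pj {d : ℕ} (w : Fin d → ℝ) (i : Fin d) (z : ℝ) : ℝ :=
  ∏ j, if j = i then 1 else z - w j

lemma mul_Pj {d : ℕ} (w : Fin d → ℝ) (i : Fin d) (z : ℝ) :
    (z - w i) * Pj w i z = ∏ j, (z - w j) := by
  unfold Pj
  have h : ∏ j, (z - w j) = (∏ j, if j = i then z - w j else 1) *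
      ∏ j, if j = i then 1 else z - w j := by
    rw [← Finset.prod_mul_distrib]
    refine Finset.prod_congr rfl fun j _ => ?_
    split_ifs <;> ring
  rw [h]
  congr 1
  simp

lemma prod_upd {d : ℕ} (w : Fin d → ℝ) (i : Fin d) (y z : ℝ) :
    ∏ j, (z - Function.update w i y j) = (z - y) * Pj w i z := by
  rw [← mul_Pj (Function.update w i y) i z, Function.update_self]
  congr 1
  unfold Pj
  refine Finset.prod_congr rfl fun j _ => ?_
  split_ifs with h
  · rfl
  · rw [Function.update_of_ne h]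

lemma Dl_cons {d : ℕ} (v : ℝ) (w : Fin d → ℝ) :
    Dl (Fin.cons v w : Fin (d + 1) → ℝ) = (∏ j, (v - w j)) * Dl w := by
  unfold Dl
  rw [Fin.prod_univ_succ]
  congr 1
  · rw [Fin.prod_Ioi_zero]
    simp
  · refine Finset.prod_congr rfl fun i _ => ?_
    rw [Fin.prod_Ioi_succ]
    simp

lemma Dl_cons_upd {d : ℕ} (v : ℝ) (w : Fin d → ℝ) (s : ℝ) (i : Fin d) :
    Dl (Function.update (Fin.cons v w : Fin (d + 1) → ℝ) i.succ (w i + s)) =
      ((∏ j, (v - w j)) - s * Pj w i v) * Dl (Function.update w i (w i + s)) := by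
  rw [← Fin.cons_update, Dl_cons, prod_upd, ← mul_Pj w i v]
  ring

lemma Dl_cons_upd0 {d : ℕ} (v : ℝ) (w : Fin d → ℝ) (s : ℝ) :
    Dl (Function.update (Fin.cons v w : Fin (d + 1) → ℝ) 0 (v + s)) =
      (∏ j, (v + s - w j)) * Dl w := by
  rw [Fin.update_cons_zero, Dl_cons]

lemma Pj_zero {d : ℕ} (v : ℝ) (w : Fin d → ℝ) (z : ℝ) :
    Pj (Fin.cons v w : Fin (d + 1) → ℝ) 0 z = ∏ j, (z - w j) := by
  unfold Pj
  rw [Fin.prod_univ_succ]
  simp [Fin.succ_ne_zero]

lemma Pj_succ {d : ℕ} (v : ℝ) (w : Fin d → ℝ) (i : Fin d) (z : ℝ) :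
    Pj (Fin.cons v w : Fin (d + 1) → ℝ) i.succ z = (z - v) * Pj w i z := by
  unfold Pj
  rw [Fin.prod_univ_succ]
  simp [(Fin.succ_ne_zero i).symm]

/-- the generating identity -/
lemma star (d : ℕ) : ∀ (w : Fin d → ℝ) (s z : ℝ),
    ∑ i, s * Dl (Function.update w i (w i + s)) * Pj w i z =
      Dl w * (∏ j, (z + s - w j) - ∏ j, (z - w j)) := by
  induction d with
  | zero => intro w s z; simp
  | succ d ih =>
    intro u s z
    obtain ⟨v, w, rfl⟩ : ∃ (v : ℝ) (w : Fin d → ℝ), u = Fin.cons v w :=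
      ⟨u 0, fun i => u i.succ, by simp [← Fin.tail_def]⟩
    rw [Fin.sum_univ_succ]
    simp only [Fin.cons_zero, Fin.cons_succ, Dl_cons_upd, Dl_cons_upd0, Pj_zero, Pj_succ, Dl_cons,
      Fin.prod_univ_succ]
    have hz := ih w s z
    have hv := ih w s v
    have key : ∀ i, s * (((∏ j, (v - w j)) - s * Pj w i v) * Dl (Function.update w i (w i + s))) *
        ((z - v) * Pj w i z) =
        (z - v) * (∏ j, (v - w j)) * (s * Dl (Function.update w i (w i + s)) * Pj w i z) -
        s * (∏ j, (z - w j)) * (s * Dl (Function.update w i (w i + s)) * Pj w i v) +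
        s * (∏ j, (v - w j)) * (s * Dl (Function.update w i (w i + s)) * Pj w i z) := by
      intro i
      rw [← mul_Pj w i z, ← mul_Pj w i v]
      ring
    rw [Finset.sum_congr rfl fun i _ => key i, Finset.sum_add_distrib, Finset.sum_sub_distrib,
      ← Finset.mul_sum, ← Finset.mul_sum, ← Finset.mul_sum, hz, hv]
    ring

lemma mom0 (d : ℕ) : ∀ (w : Fin d → ℝ) (s : ℝ), s ≠ 0 →
    ∑ i, Dl (Function.update w i (w i + s)) = d * Dl w := by
  induction d with
  | zero => intro w s _; simp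
  | succ d ih =>
    intro u s hs
    obtain ⟨v, w, rfl⟩ : ∃ (v : ℝ) (w : Fin d → ℝ), u = Fin.cons v w :=
      ⟨u 0, fun i => u i.succ, by simp [← Fin.tail_def]⟩
    rw [Fin.sum_univ_succ]
    simp only [Fin.cons_zero, Fin.cons_succ, Dl_cons_upd, Dl_cons_upd0, Dl_cons]
    have h0 := ih w s hs
    have hv := star d w s v
    have key : ∀ i, ((∏ j, (v - w j)) - s * Pj w i v) * Dl (Function.update w i (w i + s)) =
        (∏ j, (v - w j)) * Dl (Function.update w i (w i + s)) -
        s * Dl (Function.update w i (w i + s)) * Pj w i v := by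
      intro i; ring
    rw [Finset.sum_congr rfl fun i _ => key i, Finset.sum_sub_distrib, ← Finset.mul_sum, h0, hv]
    push_cast
    ring

lemma mom1 (d : ℕ) : ∀ (w : Fin d → ℝ) (s : ℝ), s ≠ 0 →
    ∑ i, w i * Dl (Function.update w i (w i + s)) = ((∑ i, w i) + s * (d.choose 2 : ℝ)) * Dl w := by
  induction d with
  | zero => intro w s _; simp
  | succ d ih =>
    intro u s hs
    obtain ⟨v, w, rfl⟩ : ∃ (v : ℝ) (w : Fin d → ℝ), u = Fin.cons v w :=
      ⟨u 0, fun i => u i.succ, by simp [← Fin.tail_def]⟩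
    rw [Fin.sum_univ_succ]
    simp only [Fin.cons_zero, Fin.cons_succ, Dl_cons_upd, Dl_cons_upd0, Dl_cons, Fin.sum_univ_succ]
    have h0 := mom0 d w s hs
    have h1 := ih w s hs
    have hv := star d w s v
    have key : ∀ i, w i * (((∏ j, (v - w j)) - s * Pj w i v) *
        Dl (Function.update w i (w i + s))) =
        (∏ j, (v - w j)) * (w i * Dl (Function.update w i (w i + s))) -
        v * (s * Dl (Function.update w i (w i + s)) * Pj w i v) +
        s * (∏ j, (v - w j)) * Dl (Function.update w i (w i + s)) := by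
      intro i
      rw [← mul_Pj w i v]
      ring
    rw [Finset.sum_congr rfl fun i _ => key i, Finset.sum_add_distrib, Finset.sum_sub_distrib,
      ← Finset.mul_sum, ← Finset.mul_sum, ← Finset.mul_sum, h0, h1, hv]
    have hc : ((d + 1).choose 2 : ℝ) = d + (d.choose 2 : ℝ) := by
      rw [Nat.choose_succ_succ' d 1]
      push_cast
      simp
    rw [hc]
    ring

lemma mom2 (d : ℕ) : ∀ (w : Fin d → ℝ),
    ∑ i, w i ^ 2 * Dl (Function.update w i (w i + (-1))) =
      ((∑ i, w i ^ 2) - ((d : ℝ) - 1) * (∑ i, w i) + (d.choose 3 : ℝ)) * Dl w := by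
  induction d with
  | zero => intro w; simp
  | succ d ih =>
    intro u
    obtain ⟨v, w, rfl⟩ : ∃ (v : ℝ) (w : Fin d → ℝ), u = Fin.cons v w :=
      ⟨u 0, fun i => u i.succ, by simp [← Fin.tail_def]⟩
    rw [Fin.sum_univ_succ]
    simp only [Fin.cons_zero, Fin.cons_succ, Dl_cons_upd, Dl_cons_upd0, Dl_cons, Fin.sum_univ_succ]
    have h0 := mom0 d w (-1) (by norm_num)
    have h1 := mom1 d w (-1) (by norm_num)
    have h2 := ih w
    have hv := star d w (-1) v
    have key : ∀ i, w i ^ 2 * (((∏ j, (v - w j)) - (-1) * Pj w i v) *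
        Dl (Function.update w i (w i + (-1)))) =
        (∏ j, (v - w j)) * (w i ^ 2 * Dl (Function.update w i (w i + (-1)))) -
        v ^ 2 * ((-1) * Dl (Function.update w i (w i + (-1))) * Pj w i v) -
        v * (∏ j, (v - w j)) * Dl (Function.update w i (w i + (-1))) -
        (∏ j, (v - w j)) * (w i * Dl (Function.update w i (w i + (-1)))) := by
      intro i
      rw [← mul_Pj w i v]
      ring
    rw [Finset.sum_congr rfl fun i _ => key i, Finset.sum_sub_distrib, Finset.sum_sub_distrib,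
      Finset.sum_sub_distrib,
      ← Finset.mul_sum, ← Finset.mul_sum, ← Finset.mul_sum, ← Finset.mul_sum, h0, h1, h2, hv]
    have hc : ((d + 1).choose 3 : ℝ) = (d.choose 2 : ℝ) + (d.choose 3 : ℝ) := by
      rw [Nat.choose_succ_succ' d 2]
      push_cast
      rfl
    rw [hc]
    push_cast
    ring

theorem t_NN : S_NN := by
  intro d u
  refine ⟨mom0 d u 1 one_ne_zero, ?_, ?_⟩
  · have := mom1 d u (-1) (by norm_num)
    simp only [← sub_eq_add_neg] at this
    rw [this]
    ring
  · have := mom2 d u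
    simp only [← sub_eq_add_neg] at this
    exact this

end Pool.Agent.J4H3.QB
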